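import Pool.Agent.R391.SqE.Fin

set_option autoImplicit false

/-!
# MP_406d9d_co: square energies of non-bipartite unicyclic graphs (Q1 and Q2: both TRUE)

Paper proof by helper2, formalised by helper391.  Among all connected non-bipartite graphs with
`n ≥ 19` vertices and `n` edges the graph `H^5_n` minimises the positive square energy and the
graph `H^3_n` minimises the negative square energy.

The definitions are in `Pool/Agent/R391/SqE/Eig.lean`: `eig G` is the family of the eigenvalues of
the adjacency matrix of `G` (with multiplicities), `sPlus G` and `sMinus G` are the sums of the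
squares of the positive and of the negative eigenvalues, and `Hg k n` is the graph `H^k_n` on the
vertices `0, ..., n - 1`.
-/

namespace Pool.Agent.Results.MP_406d9d_co.SquareEnergies

open Pool.Agent.R391.SqE

universe u

/-- **Q1 and Q2 of MP_406d9d are true.** -/
theorem result {V : Type u} [Fintype V] (G : SimpleGraph V) (hn : 19 ≤ Fintype.card V)
    (hconn : G.Connected) (hedges : G.edgeSet.ncard = Fintype.card V)
    (hnonbip : ¬ G.Colorable 2) :
    sPlus (Hg 5 (Fintype.card V)) ≤ sPlus G ∧ sMinus (Hg 3 (Fintype.card V)) ≤ sMinus G := by
  obtain ⟨h1, h2⟩ := final hn hconn hedges hnonbip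
  have hG := eig_sq G
  have h5 := eig_sq (Hg 5 (Fintype.card V))
  have h3 := eig_sq (Hg 3 (Fintype.card V))
  rw [hedges] at hG
  rw [H_count (by norm_num) (by omega)] at h5 h3
  rw [sPlus_eq, sPlus_eq, sMinus_eq, sMinus_eq, hG, h5, h3]
  constructor <;> linarith

end Pool.Agent.Results.MP_406d9d_co.SquareEnergies
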